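import Pool.Agent.N594.NT.Stm3

/-!
# Project NT2 (helper594), part LAM (helper655): all sequences, and the sequences inside a part
-/

set_option autoImplicit false

open Finset
open scoped Classical

namespace Pool.Agent.N655.NT.LAM

open Pool.Agent.TH200.LP Pool.Agent.N594.CT Pool.Agent.N442.ES Pool.Agent.N594.NT

section

variable {d : ℕ} {V : Type} [Fintype V]

omit [Fintype V] in
theorem image_cons2 (x y : V) (z : Fin d → V) :
    univ.image (Fin.cons x (Fin.cons y z : Fin (d + 1) → V) : Fin (d + 2) → V) =
      insert x (insert y (univ.image z)) := by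
  ext v
  simp only [mem_image, mem_univ, true_and, mem_insert, Fin.exists_fin_succ, Fin.cons_zero,
    Fin.cons_succ]
  constructor
  · rintro (h | h | h)
    · exact Or.inl h.symm
    · exact Or.inr (Or.inl h.symm)
    · exact Or.inr (Or.inr h)
  · rintro (h | h | h)
    · exact Or.inl h.symm
    · exact Or.inr (Or.inl h.symm)
    · exact Or.inr (Or.inr h)

omit [Fintype V] in
theorem inj_of_H {H : Finset V → Prop} (hH : Un d H) {x y : V} {z : Fin d → V}
    (h : H (insert x (insert y (univ.image z)))) :
    Function.Injective (Fin.cons x (Fin.cons y z : Fin (d + 1) → V) : Fin (d + 2) → V) := by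
  have h1 := hH _ h
  rw [← image_cons2] at h1
  have h2 : (univ.image (Fin.cons x (Fin.cons y z : Fin (d + 1) → V) : Fin (d + 2) → V)).card =
      (univ : Finset (Fin (d + 2))).card := by
    rw [h1, card_univ, Fintype.card_fin]
  have h3 := card_image_iff.1 h2
  intro a b hab
  exact h3 (by simp) (by simp) hab

theorem inj_iff {x y : V} (hxy : x ≠ y) (z : Fin d → V) :
    Function.Injective (Fin.cons x (Fin.cons y z : Fin (d + 1) → V) : Fin (d + 2) → V) ↔
      Function.Injective z ∧ ∀ i, z i ∈ (univ.erase x).erase y := by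
  rw [Fin.cons_injective_iff, Fin.cons_injective_iff]
  simp only [Set.mem_range, Fin.exists_fin_succ, Fin.cons_zero, Fin.cons_succ, not_or, not_exists,
    mem_erase, mem_univ, and_true]
  constructor
  · rintro ⟨⟨-, h1⟩, h2, h3⟩
    exact ⟨h3, fun i => ⟨h2 i, h1 i⟩⟩
  · rintro ⟨h1, h2⟩
    exact ⟨⟨fun h => hxy h.symm, fun i => (h2 i).2⟩, fun i => (h2 i).1, h1⟩

theorem count (S : Finset V) :
    (univ.filter fun z : Fin d → V => Function.Injective z ∧ ∀ i, z i ∈ S).card =
      S.card.descFactorial d := by
  have h1 : Fintype.card (Fin d ↪ S) = S.card.descFactorial d := by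
    rw [Fintype.card_embedding_eq, Fintype.card_fin, Fintype.card_coe]
  rw [← h1, ← Fintype.card_subtype]
  refine Fintype.card_congr ⟨fun z => ⟨fun i => ⟨z.1 i, z.2.2 i⟩, fun a b hab => ?_⟩,
    fun e => ⟨fun i => (e i).1, fun a b hab => ?_, fun i => (e i).2⟩, fun z => ?_, fun e => ?_⟩
  · exact z.2.1 (congrArg Subtype.val hab)
  · exact e.injective (Subtype.ext hab)
  · rfl
  · rfl

theorem av_count (S : Finset V) :
    (av fun z : Fin d → V => ind (Function.Injective z ∧ ∀ i, z i ∈ S)) =
      (S.card.descFactorial d : ℝ) / (Fintype.card V : ℝ) ^ d := by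
  have h1 : ∑ z : Fin d → V, ind (Function.Injective z ∧ ∀ i, z i ∈ S) =
      ((univ.filter fun z : Fin d → V => Function.Injective z ∧ ∀ i, z i ∈ S).card : ℝ) := by
    rw [Finset.card_filter, Nat.cast_sum]
    refine Finset.sum_congr rfl fun z _ => ?_
    unfold ind
    split_ifs <;> simp
  unfold av
  rw [h1, count, Fintype.card_fun, Fintype.card_fin, Nat.cast_pow]

end

theorem main : Pool.Agent.N594.NT.S_LAM := by
  intro d k V _ _ H hH
  have hI : ∀ x y : V, x ≠ y → ∀ z : Fin d → V, H (insert x (insert y (univ.image z))) →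
      Function.Injective z ∧ ∀ i, z i ∈ (univ.erase x).erase y :=
    fun x y hxy z h => (inj_iff hxy z).1 (inj_of_H hH h)
  have hcard : ∀ x y : V, x ≠ y → ((univ.erase x).erase y).card = Fintype.card V - 2 := by
    intro x y hxy
    rw [card_erase_of_mem (mem_erase.2 ⟨hxy.symm, mem_univ _⟩), card_erase_of_mem (mem_univ _),
      card_univ]
    omega
  refine ⟨?_, ?_⟩
  · intro x y hxy
    unfold cdg mdg
    rw [← av_add, ← hcard x y hxy, ← av_count]
    congr 1
    funext z
    by_cases h : H (insert x (insert y (univ.image z)))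
    · rw [ind_true h, ind_true (hI x y hxy z h), ind_false, add_zero]
      rintro ⟨-, h'⟩
      exact h' h
    · rw [ind_false h, zero_add]
      refine ind_congr ?_
      rw [inj_iff hxy z]
      exact ⟨fun h' => h'.1, fun h' => ⟨h', h⟩⟩
  · intro π x y hxy hπ
    obtain ⟨S, hS⟩ : ∃ S : Finset V, S = ((univ.filter fun v : V => π v = π x).erase x).erase y :=
      ⟨_, rfl⟩
    have hSc : S.card = ps π (π x) - 2 := by
      rw [hS, card_erase_of_mem (mem_erase.2 ⟨hxy.symm, mem_filter.2 ⟨mem_univ _, hπ.symm⟩⟩),
        card_erase_of_mem (show x ∈ univ.filter fun v : V => π v = π x from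
          mem_filter.2 ⟨mem_univ _, rfl⟩)]
      unfold ps
      omega
    have hmem : ∀ v, v ∈ S ↔ v ∈ (univ.erase x).erase y ∧ π v = π x := by
      intro v
      rw [hS]
      simp only [mem_erase, mem_filter, mem_univ, true_and, and_true]
      tauto
    have key : ∀ z : Fin d → V, ind (H (insert x (insert y (univ.image z)))) ≤
        (ind (Function.Injective z ∧ ∀ i, z i ∈ (univ.erase x).erase y) -
          ind (Function.Injective z ∧ ∀ i, z i ∈ S)) +
        ind (H (insert x (insert y (univ.image z))) ∧ ∀ i, π (z i) = π x) := by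
      intro z
      by_cases h : H (insert x (insert y (univ.image z)))
      · have h1 := hI x y hxy z h
        rw [ind_true h, ind_true h1]
        by_cases h2 : ∀ i, π (z i) = π x
        · rw [ind_true (P := H (insert x (insert y (univ.image z))) ∧ ∀ i, π (z i) = π x) ⟨h, h2⟩,
            ind_true (P := Function.Injective z ∧ ∀ i, z i ∈ S)
              ⟨h1.1, fun i => (hmem _).2 ⟨h1.2 i, h2 i⟩⟩]
          norm_num
        · rw [ind_false (P := Function.Injective z ∧ ∀ i, z i ∈ S)
              (fun h3 => h2 fun i => ((hmem _).1 (h3.2 i)).2)]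
          have := ind_nonneg (H (insert x (insert y (univ.image z))) ∧ ∀ i, π (z i) = π x)
          linarith
      · rw [ind_false h]
        have h1 : ind (Function.Injective z ∧ ∀ i, z i ∈ S) ≤
            ind (Function.Injective z ∧ ∀ i, z i ∈ (univ.erase x).erase y) :=
          ind_mono fun h3 => ⟨h3.1, fun i => ((hmem _).1 (h3.2 i)).1⟩
        have := ind_nonneg (H (insert x (insert y (univ.image z))) ∧ ∀ i, π (z i) = π x)
        linarith
    have h1 := av_mono key
    rw [av_add, av_sub, av_count, av_count, hcard x y hxy, hSc, ← sub_div] at h1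
    exact h1

end Pool.Agent.N655.NT.LAM
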